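import Pool.Agent.Lib.MP_8dfb46_an.Main

namespace Pool.Agent.Results.MP_8dfb46_an.NonConvex

open MeasureTheory Pool.Agent.Lib.MP_8dfb46_an

/-- In the plane, for every core conductivity `0 < σ < 1/2` there are a convex domain `D`,
a volume `V₀ > |D|` and a solution `Ω` of the outer problem for `(D, V₀)` that is not convex. -/
theorem result (σ : ℝ) (h0 : 0 < σ) (h1 : σ < 1 / 2) :
    ∃ (D : Set (EuclideanSpace ℝ (Fin 2))) (V₀ : ℝ) (Ω : Set (EuclideanSpace ℝ (Fin 2))),
      IsDomain D ∧ Convex ℝ D ∧ volume D < ENNReal.ofReal V₀ ∧ IsOuterSolution σ D V₀ Ω ∧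
        ¬ Convex ℝ Ω :=
  main h0 h1

end Pool.Agent.Results.MP_8dfb46_an.NonConvex
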